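import Mathlib
import Pool.Agent.H160.TF.Main

/-!
# Freeness over finite fields and complete intersections

Let `A` be an arrangement of `n` hyperplanes in `K ^ l`, `l ≥ 3`, `K` a finite field with `q` elements, such
that `l = 3` and `n ≥ 1`, or `n ≥ q ^ (l-2) + 2 q ^ (l-3) + q ^ (l-4) + ... + q`. Then `A` is free if and
only if every subspace of codimension two lies in a hyperplane of `A`, or the ideal of the union of the
uncovered subspaces of codimension two is a complete intersection of two hypersurfaces of degrees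
`i`, `j` with `i + j + n = 2 q ^ (l-2) + q ^ (l-3) + ... + q + 1`.
-/

set_option autoImplicit false

namespace Pool.Agent.Results.MP_feb289_co.CompleteIntersection

variable {K : Type} [Field K] {n l : ℕ}

/-- The rows of `A` are nonzero linear forms with distinct kernels. -/
def Distinct (A : Matrix (Fin n) (Fin l) K) : Prop :=
  (∀ i j : Fin n, i ≠ j → ∀ c : K, A i ≠ c • A j) ∧ ∀ i : Fin n, A i ≠ 0

/-- The `i`-th hyperplane, the kernel of the `i`-th row (as in the frozen statement). -/
abbrev H (A : Matrix (Fin n) (Fin l) K) (i : Fin n) : Submodule K (Fin l → K) :=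
  LinearMap.ker ((LinearMap.proj i : (Fin n → K) →ₗ[K] K).comp (Matrix.mulVecLin A))

/-- The module of logarithmic vector fields (as in the frozen statement). -/
noncomputable abbrev D (A : Matrix (Fin n) (Fin l) K) :
    Submodule (MvPolynomial (Fin l) K) (Fin l → MvPolynomial (Fin l) K) :=
  Submodule.comap (Matrix.mulVecLin (A.map MvPolynomial.C))
    (Submodule.pi Set.univ (fun i : Fin n =>
      (Ideal.span {(Matrix.mulVec (A.map MvPolynomial.C)
          (fun j => (MvPolynomial.X j : MvPolynomial (Fin l) K))) i} :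
        Submodule (MvPolynomial (Fin l) K) (MvPolynomial (Fin l) K))))

/-- `D(A)` has a basis whose `k`-th member has homogeneous components of degree `e k`, that is, `A` is free
with exponents `e 0, ..., e (l-1)`. -/
def FreeWithExponents (A : Matrix (Fin n) (Fin l) K) (e : Fin l → ℕ) : Prop :=
  ∃ b : Module.Basis (Fin l) (MvPolynomial (Fin l) K) ↥(D A),
    ∀ k j, ((b k : Fin l → MvPolynomial (Fin l) K) j).IsHomogeneous (e k)

/-- The ideal generated by the linear forms vanishing on the subspace `Y` (the ideal of `Y`). -/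
noncomputable def idealOf (Y : Submodule K (Fin l → K)) : Ideal (MvPolynomial (Fin l) K) :=
  Ideal.span { f | ∃ a : Fin l → K, (∀ x ∈ Y, a ⬝ᵥ x = 0) ∧
    f = ∑ j, MvPolynomial.C (a j) * MvPolynomial.X j }

/-- The intersection of the ideals of the subspaces of codimension two of `K ^ l` which lie in no
hyperplane of `A` (the unit ideal if there is none). -/
noncomputable def uncoveredIdeal (A : Matrix (Fin n) (Fin l) K) : Ideal (MvPolynomial (Fin l) K) :=
  ⨅ Y : { Y : Submodule K (Fin l → K) // Module.finrank K Y + 2 = l ∧ ∀ i, ¬ Y ≤ H A i },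
    idealOf Y.1

/-- Every subspace of codimension two of `K ^ l` lies in a hyperplane of `A`. -/
def Covers (A : Matrix (Fin n) (Fin l) K) : Prop :=
  ∀ Y : Submodule K (Fin l → K), Module.finrank K Y + 2 = l → ∃ i, Y ≤ H A i

/-- The uncovered ideal is generated by two homogeneous polynomials of degrees `i` and `j` without
common factor. -/
def IsCompleteIntersection (A : Matrix (Fin n) (Fin l) K) (i j : ℕ) : Prop :=
  ∃ f g : MvPolynomial (Fin l) K, f.IsHomogeneous i ∧ g.IsHomogeneous j ∧ IsRelPrime f g ∧
    uncoveredIdeal A = Ideal.span {f, g}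

/-- **Complete intersection criterion.** Let `K` be a finite field with `q` elements, `l ≥ 3`, `A` an
arrangement of `n` distinct hyperplanes in `K ^ l`, `N = 1 + q + ... + q ^ (l-2)`. If the uncovered ideal of
`A` is a complete intersection of positive degrees `i`, `j` with `i + j + n = N + q ^ (l-2)`, then `A` is free
with exponents `1, q, ..., q ^ (l-3), q ^ (l-2) - j, q ^ (l-2) - i`. If `l = 3` and `n ≥ 1`, or
`N + q ^ (l-3) ≤ n + 1`, then `A` is free if and only if it covers all subspaces of codimension two or its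
uncovered ideal is such a complete intersection. -/
theorem result (K : Type) [Field K] [Fintype K] (l n : ℕ) (hl : 3 ≤ l)
    (A : Matrix (Fin n) (Fin l) K) (hA : Distinct A) (q N : ℕ) (hq : q = Fintype.card K)
    (hN : N = ∑ j ∈ Finset.range (l - 1), q ^ j) :
    (∀ i j : ℕ, 1 ≤ i → 1 ≤ j → i + j + n = N + q ^ (l - 2) → IsCompleteIntersection A i j →
      i ≤ q ^ (l - 2) ∧ j ≤ q ^ (l - 2) ∧
      FreeWithExponents A (fun k => if k.val < l - 2 then q ^ k.val else
        if k.val = l - 2 then q ^ (l - 2) - j else q ^ (l - 2) - i)) ∧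
    ((l = 3 ∧ 1 ≤ n) ∨ N + q ^ (l - 3) ≤ n + 1 →
      (Module.Free (MvPolynomial (Fin l) K) ↥(D A) ↔ Covers A ∨
        ∃ i j : ℕ, 1 ≤ i ∧ 1 ≤ j ∧ i + j + n = N + q ^ (l - 2) ∧
          IsCompleteIntersection A i j)) := by
  subst hq
  subst hN
  have hci : ∀ i j : ℕ, 1 ≤ i → 1 ≤ j →
      i + j + n = ∑ j ∈ Finset.range (l - 1), Fintype.card K ^ j + Fintype.card K ^ (l - 2) →
      IsCompleteIntersection A i j →
      i ≤ Fintype.card K ^ (l - 2) ∧ j ≤ Fintype.card K ^ (l - 2) ∧
      FreeWithExponents A (fun k => if k.val < l - 2 then Fintype.card K ^ k.val else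
        if k.val = l - 2 then Fintype.card K ^ (l - 2) - j else Fintype.card K ^ (l - 2) - i) := by
    rintro i j hi hj hij ⟨f, g, hf, hg, hfg, hI⟩
    exact Pool.Agent.H160.TF.main_ci hA (by omega) hi hj hij hf hg hfg hI
  refine ⟨hci, fun hR => ⟨fun hfree => ?_, ?_⟩⟩
  · by_cases hu : (Pool.Agent.H160.TF.unc A).card = 0
    · exact Or.inl ((Pool.Agent.H160.TF.covers_iff_unc A).2 hu)
    · right
      obtain ⟨i, j, f, g, hi, hj, hij, hf, hg, hfg, hI⟩ :=
        Pool.Agent.H160.TF.main_ci_conv hA hl hR hfree hu
      exact ⟨i, j, hi, hj, hij, f, g, hf, hg, hfg, hI⟩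
  · rintro (hcov | ⟨i, j, hi, hj, hij, h⟩)
    · exact (Pool.Agent.H160.TF.main_cover hA (by omega)
        ((Pool.Agent.H160.TF.covers_iff_unc A).1 hcov)).2.free
    · obtain ⟨-, -, b, -⟩ := hci i j hi hj hij h
      exact Module.Free.of_basis b

end Pool.Agent.Results.MP_feb289_co.CompleteIntersection
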