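import Mathlib
import Pool.Agent.H160.TF.Main

/-!
# The structure of logarithmic vector fields over finite fields

Let `A` be an arrangement of `n` hyperplanes in `K ^ l`, `K` a finite field with `q` elements. The Frobenius
fields `θ_k = ∑ x_j ^ (q ^ k) ∂_j` lie in `D(A)`. The quotient of `D(A)` by the submodule generated by
`θ_0, ..., θ_{l-2}` is isomorphic, with a shift of degrees by `1 + q + ... + q ^ (l-2) - n`, to the
homogeneous ideal of the union of the subspaces of codimension two which are defined over `K` and lie in no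
hyperplane of `A`.
-/

set_option autoImplicit false

namespace Pool.Agent.Results.MP_feb289_co.FrobeniusStructure

variable {K : Type} [Field K] {n l : ℕ}

/-- The rows of `A` are nonzero linear forms with distinct kernels. -/
def Distinct (A : Matrix (Fin n) (Fin l) K) : Prop :=
  (∀ i j : Fin n, i ≠ j → ∀ c : K, A i ≠ c • A j) ∧ ∀ i : Fin n, A i ≠ 0

/-- The `i`-th hyperplane, the kernel of the `i`-th row (as in the frozen statement). -/
abbrev H (A : Matrix (Fin n) (Fin l) K) (i : Fin n) : Submodule K (Fin l → K) :=
  LinearMap.ker ((LinearMap.proj i : (Fin n → K) →ₗ[K] K).comp (Matrix.mulVecLin A))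

/-- The module of logarithmic vector fields (as in the frozen statement). -/
noncomputable abbrev D (A : Matrix (Fin n) (Fin l) K) :
    Submodule (MvPolynomial (Fin l) K) (Fin l → MvPolynomial (Fin l) K) :=
  Submodule.comap (Matrix.mulVecLin (A.map MvPolynomial.C))
    (Submodule.pi Set.univ (fun i : Fin n =>
      (Ideal.span {(Matrix.mulVec (A.map MvPolynomial.C)
          (fun j => (MvPolynomial.X j : MvPolynomial (Fin l) K))) i} :
        Submodule (MvPolynomial (Fin l) K) (MvPolynomial (Fin l) K))))

/-- The Frobenius field `θ_k = ∑ x_j ^ (q ^ k) ∂_j`, where `q` is the number of elements of `K`. -/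
noncomputable def frobenius (K : Type) [Field K] [Fintype K] (l k : ℕ) :
    Fin l → MvPolynomial (Fin l) K :=
  fun j => MvPolynomial.X j ^ (Fintype.card K ^ k)

/-- The ideal generated by the linear forms vanishing on the subspace `Y` (the ideal of `Y`). -/
noncomputable def idealOf (Y : Submodule K (Fin l → K)) : Ideal (MvPolynomial (Fin l) K) :=
  Ideal.span { f | ∃ a : Fin l → K, (∀ x ∈ Y, a ⬝ᵥ x = 0) ∧
    f = ∑ j, MvPolynomial.C (a j) * MvPolynomial.X j }

/-- The intersection of the ideals of the subspaces of codimension two of `K ^ l` which lie in no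
hyperplane of `A` (the unit ideal if there is none). -/
noncomputable def uncoveredIdeal (A : Matrix (Fin n) (Fin l) K) : Ideal (MvPolynomial (Fin l) K) :=
  ⨅ Y : { Y : Submodule K (Fin l → K) // Module.finrank K Y + 2 = l ∧ ∀ i, ¬ Y ≤ H A i },
    idealOf Y.1

/-- The Frobenius fields `θ_0, ..., θ_{l-2}` are linearly independent over the polynomial ring. -/
def FrobeniusIndependent (K : Type) [Field K] [Fintype K] (l : ℕ) : Prop :=
  LinearIndependent (MvPolynomial (Fin l) K) (fun k : Fin (l - 1) => frobenius K l k)

/-- The kernel of `π` consists of the combinations of the Frobenius fields `θ_0, ..., θ_{l-2}`. -/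
def KernelIsFrobenius [Fintype K] (A : Matrix (Fin n) (Fin l) K)
    (π : ↥(D A) →ₗ[MvPolynomial (Fin l) K] MvPolynomial (Fin l) K) : Prop :=
  ∀ η : ↥(D A), π η = 0 ↔ (η : Fin l → MvPolynomial (Fin l) K) ∈
    Submodule.span (MvPolynomial (Fin l) K) (Set.range fun k : Fin (l - 1) => frobenius K l k)

/-- `π` maps vector fields with homogeneous components of degree `d` to homogeneous polynomials of degree
`d + N - n`, and to zero if `d + N < n`. -/
def ShiftsDegrees (A : Matrix (Fin n) (Fin l) K) (N : ℕ)
    (π : ↥(D A) →ₗ[MvPolynomial (Fin l) K] MvPolynomial (Fin l) K) : Prop :=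
  ∀ (d : ℕ) (η : ↥(D A)),
    (∀ j, ((η : Fin l → MvPolynomial (Fin l) K) j).IsHomogeneous d) →
    (∀ e : ℕ, e + n = d + N → (π η).IsHomogeneous e) ∧ (d + N < n → π η = 0)

/-- **Structure theorem.** Let `K` be a finite field with `q` elements, `l ≥ 1`, `A` an arrangement of `n`
distinct hyperplanes in `K ^ l`, `N = 1 + q + ... + q ^ (l-2)`. There is a linear map `π` from `D(A)` to the
polynomial ring, whose kernel is generated by the Frobenius fields `θ_0, ..., θ_{l-2}` (which are linearly
independent), whose image is the uncovered ideal of `A`, and which maps homogeneous fields of degree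
`d` to homogeneous polynomials of degree `d + N - n` (to zero if `d + N < n`). -/
theorem result (K : Type) [Field K] [Fintype K] (l n : ℕ) (hl : 1 ≤ l)
    (A : Matrix (Fin n) (Fin l) K) (hA : Distinct A) (N : ℕ)
    (hN : N = ∑ j ∈ Finset.range (l - 1), Fintype.card K ^ j) :
    FrobeniusIndependent K l ∧
    ∃ π : ↥(D A) →ₗ[MvPolynomial (Fin l) K] MvPolynomial (Fin l) K,
      KernelIsFrobenius A π ∧ LinearMap.range π = uncoveredIdeal A ∧ ShiftsDegrees A N π := by
  classical
  subst hN
  obtain ⟨π, h1, h2, h3⟩ := Pool.Agent.H160.TF.main_structure hA hl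
  refine ⟨?_, π, h1, h2, h3⟩
  rw [FrobeniusIndependent, Fintype.linearIndependent_iff]
  intro g hg k
  have h4 : ∑ j ∈ Finset.range l, (if hj : j < l - 1 then g ⟨j, hj⟩ else 0) •
      Pool.Agent.H160.TF.th K l j = 0 := by
    rw [Pool.Agent.H160.TF.range_pred (show 0 < l by omega), Finset.sum_range_succ,
      dif_neg (lt_irrefl _), zero_smul, add_zero,
      ← Fin.sum_univ_eq_sum_range (fun j => (if hj : j < l - 1 then g ⟨j, hj⟩ else 0) •
        Pool.Agent.H160.TF.th K l j) (l - 1)]
    rw [← hg]
    refine Finset.sum_congr rfl fun j _ => ?_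
    rw [dif_pos j.isLt]
    rfl
  have h5 := Pool.Agent.H160.TF.th_indep h4 k.val (by have := k.isLt; omega)
  rwa [dif_pos k.isLt] at h5

end Pool.Agent.Results.MP_feb289_co.FrobeniusStructure
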