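import Mathlib
import Pool.Agent.H160.TF.Main

/-!
# A combinatorial freeness criterion over finite fields, in every dimension

Let `A` be an arrangement of `n` hyperplanes in `K ^ l`, `K` a finite field with `q` elements, and let `u` be
the number of subspaces of codimension two of `K ^ l` contained in no hyperplane of `A`; it is determined by
`n` and the second Betti number of `A`. If `u = 0` then `A` is free with exponents
`1, q, ..., q ^ (l-2), n - (1 + q + ... + q ^ (l-2))`. If `u ≠ 0`, then
`u ≥ 2 q ^ (l-2) + q ^ (l-3) + ... + q - n`, and in the case of equality `A` is free with exponents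
`1, q, ..., q ^ (l-3), q ^ (l-2) - u, q ^ (l-2) - 1`. There is no restriction on `n`.
-/

set_option autoImplicit false

namespace Pool.Agent.Results.MP_feb289_co.NearlyCoveringFree

variable {K : Type} [Field K] {n l : ℕ}

/-- The rows of `A` are nonzero linear forms with distinct kernels. -/
def Distinct (A : Matrix (Fin n) (Fin l) K) : Prop :=
  (∀ i j : Fin n, i ≠ j → ∀ c : K, A i ≠ c • A j) ∧ ∀ i : Fin n, A i ≠ 0

/-- The `i`-th hyperplane, the kernel of the `i`-th row (as in the frozen statement). -/
abbrev H (A : Matrix (Fin n) (Fin l) K) (i : Fin n) : Submodule K (Fin l → K) :=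
  LinearMap.ker ((LinearMap.proj i : (Fin n → K) →ₗ[K] K).comp (Matrix.mulVecLin A))

/-- The module of logarithmic vector fields (as in the frozen statement). -/
noncomputable abbrev D (A : Matrix (Fin n) (Fin l) K) :
    Submodule (MvPolynomial (Fin l) K) (Fin l → MvPolynomial (Fin l) K) :=
  Submodule.comap (Matrix.mulVecLin (A.map MvPolynomial.C))
    (Submodule.pi Set.univ (fun i : Fin n =>
      (Ideal.span {(Matrix.mulVec (A.map MvPolynomial.C)
          (fun j => (MvPolynomial.X j : MvPolynomial (Fin l) K))) i} :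
        Submodule (MvPolynomial (Fin l) K) (MvPolynomial (Fin l) K))))

/-- `D(A)` has a basis whose `k`-th member has homogeneous components of degree `e k`, that is, `A` is free
with exponents `e 0, ..., e (l-1)`. -/
def FreeWithExponents (A : Matrix (Fin n) (Fin l) K) (e : Fin l → ℕ) : Prop :=
  ∃ b : Module.Basis (Fin l) (MvPolynomial (Fin l) K) ↥(D A),
    ∀ k j, ((b k : Fin l → MvPolynomial (Fin l) K) j).IsHomogeneous (e k)

/-- The number of subspaces of codimension two of `K ^ l` that lie in no hyperplane of `A`. -/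
noncomputable def uncovered (A : Matrix (Fin n) (Fin l) K) : ℕ :=
  Nat.card { X : Submodule K (Fin l → K) // Module.finrank K X + 2 = l ∧ ∀ i, ¬ X ≤ H A i }

/-- The second Betti number of `A` (the coefficient of `t ^ (l-2)` in the characteristic polynomial): the
sum, over the intersections `X` of two different hyperplanes of `A`, of the number of hyperplanes of `A`
containing `X`, minus one. -/
noncomputable def betti2 (A : Matrix (Fin n) (Fin l) K) : ℕ :=
  ∑ᶠ X ∈ { X : Submodule K (Fin l → K) | ∃ i j : Fin n, i ≠ j ∧ X = H A i ⊓ H A j },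
    (Nat.card { i : Fin n // X ≤ H A i } - 1)

/-- **Covering and nearly covering arrangements are free.** Let `K` be a finite field with `q` elements,
`l ≥ 2`, `A` an arrangement of `n` distinct hyperplanes in `K ^ l`, `N = 1 + q + ... + q ^ (l-2)`,
`u = uncovered A`. Then `(q+1) u + (q+1) n N = (q+1) b₂(A) + (1 + q + ... + q ^ (l-1)) N`. If `u = 0`, then
`N ≤ n` and `A` is free with exponents `1, q, ..., q ^ (l-2), n - N`. If `u ≠ 0`, then
`N + q ^ (l-2) ≤ n + u + 1`, and if equality holds, then `u ≤ q ^ (l-2)` and `A` is free with exponents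
`1, q, ..., q ^ (l-3), q ^ (l-2) - u, q ^ (l-2) - 1`. -/
theorem result (K : Type) [Field K] [Fintype K] (l n : ℕ) (hl : 2 ≤ l)
    (A : Matrix (Fin n) (Fin l) K) (hA : Distinct A) (q N : ℕ) (hq : q = Fintype.card K)
    (hN : N = ∑ j ∈ Finset.range (l - 1), q ^ j) :
    (q + 1) * uncovered A + (q + 1) * n * N =
      (q + 1) * betti2 A + (∑ j ∈ Finset.range l, q ^ j) * N ∧
    (uncovered A = 0 → N ≤ n ∧
      FreeWithExponents A (fun k => if k.val < l - 1 then q ^ k.val else n - N)) ∧
    (uncovered A ≠ 0 → N + q ^ (l - 2) ≤ n + uncovered A + 1) ∧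
    (uncovered A ≠ 0 → n + uncovered A + 1 = N + q ^ (l - 2) → uncovered A ≤ q ^ (l - 2) ∧
      FreeWithExponents A (fun k => if k.val < l - 2 then q ^ k.val else
        if k.val = l - 2 then q ^ (l - 2) - uncovered A else q ^ (l - 2) - 1)) := by
  classical
  subst hq
  subst hN
  have hcard : uncovered A = (Pool.Agent.H160.TF.unc A).card :=
    Nat.subtype_card _ fun X => Pool.Agent.H160.TF.mem_unc
  have hbetti : betti2 A = Pool.Agent.H160.TF.b2 A := by
    have h1 : { X : Submodule K (Fin l → K) | ∃ i j : Fin n, i ≠ j ∧ X = H A i ⊓ H A j } =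
        ((Pool.Agent.H160.TF.L2 A : Finset (Submodule K (Fin l → K))) :
          Set (Submodule K (Fin l → K))) := by
      ext X
      rw [Set.mem_ofPred_eq, Finset.mem_coe, Pool.Agent.H160.TF.L2, Finset.mem_image]
      constructor
      · rintro ⟨i, j, hij, rfl⟩
        exact ⟨(i, j), Finset.mem_offDiag.2 ⟨Finset.mem_univ _, Finset.mem_univ _, hij⟩, rfl⟩
      · rintro ⟨⟨i, j⟩, hp, rfl⟩
        exact ⟨i, j, (Finset.mem_offDiag.1 hp).2.2, rfl⟩
    have h2 : ∀ X : Submodule K (Fin l → K),
        Nat.card { i : Fin n // X ≤ H A i } = Pool.Agent.H160.TF.mult A X := by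
      intro X
      exact Nat.subtype_card _ fun i => by
        rw [Finset.mem_filter]
        exact ⟨fun h => h.2, fun h => ⟨Finset.mem_univ _, h⟩⟩
    rw [betti2, h1, finsum_mem_coe_finset, Pool.Agent.H160.TF.b2]
    exact Finset.sum_congr rfl fun X _ => by rw [h2]
  rw [hcard, hbetti]
  refine ⟨Pool.Agent.H160.TF.unc_formula hA, fun hu => Pool.Agent.H160.TF.main_cover hA hl hu,
    fun hu => Pool.Agent.H160.TF.unc_bound hA hl hu, fun hu heq =>
    Pool.Agent.H160.TF.main_near hA hl hu heq⟩

end Pool.Agent.Results.MP_feb289_co.NearlyCoveringFree
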