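import Mathlib
import Pool.Agent.H160.TF.Main

/-!
# Terao's conjecture for large arrangements over finite fields, in every dimension

Let `K` be a finite field with `q` elements, `l ≥ 3`. Terao's conjecture holds for the arrangements of
`n ≥ 2 q ^ (l-2) + q ^ (l-3) + ... + q - 2` hyperplanes in `K ^ l`. More precisely, such an arrangement is
free if and only if the number `u` of subspaces of codimension two of `K ^ l` that lie in no
hyperplane of the arrangement is `0` or `2 q ^ (l-2) + q ^ (l-3) + ... + q - n`.

The proof is elementary: `q`-polynomials describe `D(A)` modulo the Frobenius fields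
`∑ x_i ^ (q ^ k) ∂_i` (`k ≤ l - 2`) as the ideal of the union of the uncovered subspaces; a graded
Nakayama argument shows that in the free case this ideal is the unit ideal or a complete intersection;
a polynomial argument of Jamison type bounds `u` from below.
-/

set_option autoImplicit false

namespace Pool.Agent.Results.MP_feb289_co.TeraoLargeFiniteFields

variable {K : Type} [Field K] {n l : ℕ}

/-- The rows of `A` are nonzero linear forms with distinct kernels. -/
def Distinct (A : Matrix (Fin n) (Fin l) K) : Prop :=
  (∀ i j : Fin n, i ≠ j → ∀ c : K, A i ≠ c • A j) ∧ ∀ i : Fin n, A i ≠ 0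

/-- The `i`-th hyperplane, the kernel of the `i`-th row (as in the frozen statement). -/
abbrev H (A : Matrix (Fin n) (Fin l) K) (i : Fin n) : Submodule K (Fin l → K) :=
  LinearMap.ker ((LinearMap.proj i : (Fin n → K) →ₗ[K] K).comp (Matrix.mulVecLin A))

/-- The set of all intersections of hyperplanes of the arrangement (as in the frozen statement). -/
abbrev Lattice (A : Matrix (Fin n) (Fin l) K) : Set (Submodule K (Fin l → K)) :=
  Set.range (fun s : Finset (Fin n) => ⨅ i ∈ s, H A i)

/-- The module of logarithmic vector fields (as in the frozen statement). -/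
noncomputable abbrev D (A : Matrix (Fin n) (Fin l) K) :
    Submodule (MvPolynomial (Fin l) K) (Fin l → MvPolynomial (Fin l) K) :=
  Submodule.comap (Matrix.mulVecLin (A.map MvPolynomial.C))
    (Submodule.pi Set.univ (fun i : Fin n =>
      (Ideal.span {(Matrix.mulVec (A.map MvPolynomial.C)
          (fun j => (MvPolynomial.X j : MvPolynomial (Fin l) K))) i} :
        Submodule (MvPolynomial (Fin l) K) (MvPolynomial (Fin l) K))))

/-- The number of subspaces of codimension two of `K ^ l` that lie in no hyperplane of `A`. -/
noncomputable def uncovered (A : Matrix (Fin n) (Fin l) K) : ℕ :=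
  Nat.card { X : Submodule K (Fin l → K) // Module.finrank K X + 2 = l ∧ ∀ i, ¬ X ≤ H A i }

/-- **Terao's conjecture for large arrangements over finite fields.** Let `K` be a finite field with
`q` elements, `l ≥ 3`, `A` an arrangement of `n` distinct hyperplanes in `K ^ l` with
`(1 + q + ... + q ^ (l-2)) + q ^ (l-2) ≤ n + 3`. Then `A` is free if and only if `uncovered A = 0` or
`n + uncovered A + 1 = (1 + q + ... + q ^ (l-2)) + q ^ (l-2)`; and if `A` is free, so is every arrangement
`B` of distinct hyperplanes in `K ^ l` whose intersection lattice is isomorphic to that of `A`. -/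
theorem result (K : Type) [Field K] [Fintype K] (l n : ℕ) (hl : 3 ≤ l)
    (A : Matrix (Fin n) (Fin l) K) (hA : Distinct A)
    (hn : ∑ j ∈ Finset.range (l - 1), Fintype.card K ^ j + Fintype.card K ^ (l - 2) ≤ n + 3) :
    (Module.Free (MvPolynomial (Fin l) K) ↥(D A) ↔ uncovered A = 0 ∨
      n + uncovered A + 1 =
        ∑ j ∈ Finset.range (l - 1), Fintype.card K ^ j + Fintype.card K ^ (l - 2)) ∧
    ∀ (m : ℕ) (B : Matrix (Fin m) (Fin l) K), Distinct B →
      Nonempty (↥(Lattice A) ≃o ↥(Lattice B)) →
      Module.Free (MvPolynomial (Fin l) K) ↥(D A) →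
      Module.Free (MvPolynomial (Fin l) K) ↥(D B) := by
  have hcard : ∀ {m : ℕ} (B : Matrix (Fin m) (Fin l) K),
      uncovered B = (Pool.Agent.H160.TF.unc B).card := by
    intro m B
    exact Nat.subtype_card _ fun X => Pool.Agent.H160.TF.mem_unc
  refine ⟨?_, ?_⟩
  · rw [hcard]
    exact Pool.Agent.H160.TF.main_large hA hl hn
  · intro m B hB he hfree
    obtain ⟨e⟩ := he
    have h1 := Pool.Agent.H160.TF.unc_card_eq hA hB e
    obtain ⟨h2, -⟩ := Pool.Agent.H160.TF.b2_eq hA hB e
    subst h2
    have h3 := (Pool.Agent.H160.TF.main_large hA hl hn).1 hfree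
    rw [h1] at h3
    exact (Pool.Agent.H160.TF.main_large hB hl hn).2 h3

end Pool.Agent.Results.MP_feb289_co.TeraoLargeFiniteFields
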